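import Mathlib
import Pool.Agent.H292R2.Leh.Defs
import Pool.Agent.Helper209.CX.A01

/-! Task A: Hadamard's inequality for the Vandermonde determinant. -/

open Pool.Agent.H292R2.Leh

namespace Pool.Agent.H159R2.LehA

theorem dprod_reindex {ι κ : Type*} [Fintype ι] [DecidableEq ι] [Fintype κ] [DecidableEq κ]
    (e : ι ≃ κ) (y : κ → ℂ) : dprod (fun i => y (e i)) = dprod y := by
  unfold dprod
  rw [← Equiv.prod_comp e]
  refine Finset.prod_congr rfl fun i _ => ?_
  refine Finset.prod_bij (fun j _ => e j) ?_ ?_ ?_ ?_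
  · intro j hj
    simp only [Finset.mem_erase, Finset.mem_univ, and_true] at hj ⊢
    exact fun h => hj (e.injective h)
  · intro j _ j' _ h
    exact e.injective h
  · intro j hj
    refine ⟨e.symm j, ?_, by simp⟩
    simp only [Finset.mem_erase, Finset.mem_univ, and_true] at hj ⊢
    intro h
    apply hj
    rw [← h]; simp
  · intro j _
    rfl

theorem dprod_fin {n : ℕ} (y : Fin n → ℂ) : dprod y = ‖(Matrix.vandermonde y).det‖ ^ 2 := by
  rw [Matrix.det_vandermonde, norm_prod]
  simp only [norm_prod]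
  unfold dprod
  have h1 : ∀ i : Fin n, Finset.univ.erase i = Finset.Ioi i ∪ Finset.Iio i := by
    intro i
    ext j
    simp only [Finset.mem_erase, Finset.mem_univ, and_true, Finset.mem_union, Finset.mem_Ioi,
      Finset.mem_Iio]
    constructor
    · intro h
      rcases lt_or_gt_of_ne h with h | h
      · exact Or.inr h
      · exact Or.inl h
    · rintro (h | h)
      · exact ne_of_gt h
      · exact ne_of_lt h
  have h2 : ∏ i : Fin n, ∏ j ∈ Finset.univ.erase i, ‖y i - y j‖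
      = (∏ i : Fin n, ∏ j ∈ Finset.Ioi i, ‖y i - y j‖) * ∏ i : Fin n, ∏ j ∈ Finset.Iio i, ‖y i - y j‖ := by
    rw [← Finset.prod_mul_distrib]
    refine Finset.prod_congr rfl fun i _ => ?_
    rw [h1, Finset.prod_union]
    rw [Finset.disjoint_left]
    intro j hj hj'
    simp only [Finset.mem_Ioi] at hj
    simp only [Finset.mem_Iio] at hj'
    exact absurd (hj.trans hj') (lt_irrefl _)
  rw [h2, sq]
  congr 1
  · refine Finset.prod_congr rfl fun i _ => Finset.prod_congr rfl fun j _ => ?_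
    rw [norm_sub_rev]
  · rw [Finset.prod_comm' (t' := Finset.univ) (s' := fun j => Finset.Ioi j)]
    intro x y
    simp

theorem vand_le {ι : Type*} [Fintype ι] [DecidableEq ι] (y : ι → ℂ) :
    dprod y ≤ (Fintype.card ι : ℝ) ^ (Fintype.card ι) *
      (∏ i, max 1 ‖y i‖) ^ (2 * (Fintype.card ι - 1)) := by
  obtain ⟨n, hn⟩ : ∃ n, n = Fintype.card ι := ⟨_, rfl⟩
  let e : Fin n ≃ ι := (Fintype.equivFinOfCardEq hn.symm).symm
  rw [← dprod_reindex e y, ← Equiv.prod_comp e, ← hn]
  generalize hz : (fun i => y (e i)) = z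
  have hz' : ∀ i, y (e i) = z i := fun i => congrFun hz i
  simp only [hz']
  rw [dprod_fin]
  -- Hadamard
  let v : Fin n → EuclideanSpace ℂ (Fin n) := fun j => WithLp.toLp 2 (fun i => z j ^ (i : ℕ))
  have hH := Helper209.CX.A01.cx_gram_hadamard n
    (fun i => EuclideanSpace.single i (1 : ℂ)) v
  have hM : (Matrix.of fun i j => (inner ℂ (EuclideanSpace.single i (1 : ℂ)) (v j) : ℂ))
      = (Matrix.vandermonde z).transpose := by
    ext i j
    simp [v, Matrix.vandermonde_apply, EuclideanSpace.inner_single_left]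
  rw [hM, Matrix.det_transpose] at hH
  simp only [EuclideanSpace.norm_single, norm_one, Finset.prod_const_one, one_mul] at hH
  have hv : ∀ j, ‖v j‖ ^ 2 ≤ (n : ℝ) * max 1 ‖z j‖ ^ (2 * (n - 1)) := by
    intro j
    rw [EuclideanSpace.norm_sq_eq]
    calc ∑ i : Fin n, ‖(v j).ofLp i‖ ^ 2 ≤ ∑ i : Fin n, max 1 ‖z j‖ ^ (2 * (n - 1)) := by
          refine Finset.sum_le_sum fun i _ => ?_
          simp only [v, norm_pow]
          rw [← pow_mul]
          calc ‖z j‖ ^ ((i : ℕ) * 2) ≤ max 1 ‖z j‖ ^ ((i : ℕ) * 2) :=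
                pow_le_pow_left₀ (norm_nonneg _) (le_max_right _ _) _
            _ ≤ max 1 ‖z j‖ ^ (2 * (n - 1)) :=
                pow_le_pow_right₀ (le_max_left _ _) (by have := i.2; omega)
      _ = (n : ℝ) * max 1 ‖z j‖ ^ (2 * (n - 1)) := by simp
  calc ‖(Matrix.vandermonde z).det‖ ^ 2 ≤ (∏ j, ‖v j‖) ^ 2 :=
        pow_le_pow_left₀ (norm_nonneg _) hH 2
    _ = ∏ j, ‖v j‖ ^ 2 := by rw [Finset.prod_pow]
    _ ≤ ∏ j, ((n : ℝ) * max 1 ‖z j‖ ^ (2 * (n - 1))) :=
        Finset.prod_le_prod (fun j _ => by positivity) (fun j _ => hv j)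
    _ = (n : ℝ) ^ n * (∏ i, max 1 ‖z i‖) ^ (2 * (n - 1)) := by
        rw [Finset.prod_mul_distrib, Finset.prod_pow]
        simp

end Pool.Agent.H159R2.LehA
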