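import Mathlib
import Pool.Agent.H292R2.Leh.Defs

/-! Task B: the maximum modulus principle on a polytorus. -/

namespace Pool.Agent.H159R2.LehB

theorem exists_torus {ι : Type*} [Fintype ι] [DecidableEq ι] (F : (ι → ℂ) → ℂ)
    (hF : ∀ (w : ι → ℂ) (i : ι), Differentiable ℂ (fun z : ℂ => F (Function.update w i z))) :
    ∃ w : ι → ℂ, (∀ i, ‖w i‖ = 1) ∧ ‖F 0‖ ≤ ‖F w‖ := by
  have key : ∀ s : Finset ι, ∃ w : ι → ℂ, (∀ i ∈ s, ‖w i‖ = 1) ∧ (∀ i ∉ s, w i = 0) ∧
      ‖F 0‖ ≤ ‖F w‖ := by
    intro s
    induction s using Finset.induction_on with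
    | empty => exact ⟨0, by simp, by simp, le_refl _⟩
    | insert i s hi ih =>
      obtain ⟨w, hw1, hw0, hw⟩ := ih
      obtain ⟨z, hz, hmax⟩ := Complex.exists_mem_frontier_isMaxOn_norm
        (f := fun z : ℂ => F (Function.update w i z)) (U := Metric.ball (0 : ℂ) 1)
        Metric.isBounded_ball ⟨0, by simp⟩ (hF w i).diffContOnCl
      rw [frontier_ball (0 : ℂ) one_ne_zero] at hz
      have hz1 : ‖z‖ = 1 := by simpa using hz
      refine ⟨Function.update w i z, ?_, ?_, ?_⟩
      · intro j hj
        by_cases hji : j = i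
        · subst hji; simpa using hz1
        · rw [Function.update_of_ne hji]
          exact hw1 j (Finset.mem_of_mem_insert_of_ne hj hji)
      · intro j hj
        rw [Finset.mem_insert, not_or] at hj
        rw [Function.update_of_ne hj.1]
        exact hw0 j hj.2
      · have h0 : (0 : ℂ) ∈ closure (Metric.ball (0 : ℂ) 1) := subset_closure (by simp)
        have h1 := hmax h0
        simp only [Function.comp_apply, Set.mem_ofPred_eq] at h1
        have h2 : Function.update w i 0 = w := by
          rw [← hw0 i hi, Function.update_eq_self]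
        rw [h2] at h1
        exact hw.trans h1
  obtain ⟨w, hw1, _, hw⟩ := key Finset.univ
  exact ⟨w, fun i => hw1 i (Finset.mem_univ i), hw⟩

end Pool.Agent.H159R2.LehB
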