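import Mathlib
import Pool.Agent.H292R2.Leh.Defs

/-! Task E: roots, Mahler measure, discriminant. -/

open Polynomial Pool.Agent.H292R2.Leh

namespace Pool.Agent.H159R2.LehE

theorem toC_monic {f : ℤ[X]} (hm : f.Monic) : (toC f).Monic := hm.map _

theorem toC_natDegree (f : ℤ[X]) : (toC f).natDegree = f.natDegree :=
  natDegree_map_eq_of_injective (RingHom.injective_int _) f

theorem toC_roots {f : ℤ[X]} {d : ℕ} {x : Fin d → ℂ} (hx : Enum f x) :
    (toC f).roots = Finset.univ.val.map x := by
  have h : toC f = ((Finset.univ.val.map x).map fun a => X - C a).prod := by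
    rw [hx, Multiset.map_map]; rfl
  rw [h, roots_multiset_prod_X_sub_C]

theorem exists_enum (f : ℤ[X]) (hm : f.Monic) : ∃ x : Fin f.natDegree → ℂ, Enum f x := by
  have hs : (toC f).Splits := IsAlgClosed.splits _
  have hcard : (toC f).roots.toList.length = f.natDegree := by
    rw [Multiset.length_toList, ← hs.natDegree_eq_card_roots, toC_natDegree]
  refine ⟨fun i => (toC f).roots.toList.get (i.cast hcard.symm), ?_⟩
  unfold Enum
  have h1 : toC f = ((toC f).roots.map fun a => X - C a).prod := by
    have := hs.eq_prod_roots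
    rw [(toC_monic hm).leadingCoeff] at this
    simpa using this
  conv_lhs => rw [h1]
  have h2 : (toC f).roots = ((toC f).roots.toList : Multiset ℂ) := (Multiset.coe_toList _).symm
  conv_lhs => rw [h2]
  rw [Multiset.map_coe, Multiset.prod_coe]
  rw [← Fin.prod_univ_fun_getElem]
  refine (Fintype.prod_equiv (finCongr hcard) _ _ ?_)
  intro i
  rfl

theorem enum_injective (f : ℤ[X]) (hm : f.Monic) (hirr : Irreducible f) {d : ℕ} (x : Fin d → ℂ)
    (hx : Enum f x) : Function.Injective x := by
  have h1 : Irreducible (f.map (Int.castRingHom ℚ)) :=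
    (IsPrimitive.Int.irreducible_iff_irreducible_map_cast hm.isPrimitive).1 hirr
  have h2 : (f.map (Int.castRingHom ℚ)).Separable := h1.separable
  have h3 : ((f.map (Int.castRingHom ℚ)).map (algebraMap ℚ ℂ)).Separable := h2.map
  rw [Polynomial.map_map] at h3
  have h4 : toC f = f.map ((algebraMap ℚ ℂ).comp (Int.castRingHom ℚ)) := by
    unfold toC
    congr 1
  rw [← h4, hx] at h3
  exact h3.injective_of_prod_X_sub_C

theorem MM_eq (f : ℤ[X]) {d : ℕ} (x : Fin d → ℂ) (hx : Enum f x) :
    MM f = ∏ i, max 1 ‖x i‖ := by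
  unfold MM
  rw [mahlerMeasure_eq_leadingCoeff_mul_prod_roots, toC_roots hx, Multiset.map_map]
  have : (toC f).leadingCoeff = 1 := by
    rw [hx]
    exact (monic_prod_X_sub_C x Finset.univ).leadingCoeff
  rw [this, norm_one, one_mul]
  rfl

theorem eval_deriv {f : ℤ[X]} {d : ℕ} {x : Fin d → ℂ} (hx : Enum f x) (i : Fin d) :
    (derivative (toC f)).eval (x i) = ∏ j ∈ Finset.univ.erase i, (x i - x j) := by
  rw [hx, derivative_prod_finset, eval_finsetSum, Finset.sum_eq_single i]
  · simp [eval_prod]
  · intro b _ hb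
    rw [eval_mul, eval_prod]
    rw [Finset.prod_eq_zero (i := i)]
    · simp
    · simp [Ne.symm hb]
    · simp
  · intro h
    exact absurd (Finset.mem_univ i) h

theorem discr_eq (f : ℤ[X]) (hm : f.Monic) {d : ℕ} (x : Fin d → ℂ) (hx : Enum f x) (hd : 0 < d) :
    |(f.discr : ℝ)| = dprod x := by
  have hdeg : f.natDegree = d := by
    rw [← toC_natDegree, (IsAlgClosed.splits (toC f)).natDegree_eq_card_roots, toC_roots hx]
    simp
  have hpos : 0 < f.degree := by
    rw [← natDegree_pos_iff_degree_pos]; omega
  have h1 := resultant_deriv hpos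
  have h2 := congrArg (Int.castRingHom ℂ) h1
  rw [← resultant_map_map, ← derivative_map, hm.leadingCoeff] at h2
  have h3 := resultant_eq_prod_eval (toC f) (derivative (toC f)) (f.natDegree - 1)
    (by
      refine (natDegree_derivative_le _).trans ?_
      rw [toC_natDegree]) (IsAlgClosed.splits _)
  rw [toC_natDegree] at h3
  have h2' : resultant (toC f) (derivative (toC f)) f.natDegree (f.natDegree - 1)
    = (Int.castRingHom ℂ) ((-1) ^ (f.natDegree * (f.natDegree - 1) / 2) * 1 * f.discr) := h2
  rw [h3, (toC_monic hm).leadingCoeff, one_pow, one_mul, toC_roots hx, Multiset.map_map] at h2'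
  have h4 := congrArg norm h2'
  have h6 : ‖(Multiset.map ((fun a => eval a (derivative (toC f))) ∘ x) Finset.univ.val).prod‖
      = dprod x := by
    have : (Multiset.map ((fun a => eval a (derivative (toC f))) ∘ x) Finset.univ.val).prod
      = ∏ i, (derivative (toC f)).eval (x i) := rfl
    rw [this, norm_prod]
    unfold dprod
    refine Finset.prod_congr rfl fun i _ => ?_
    rw [eval_deriv hx, norm_prod]
  rw [h6] at h4
  rw [h4]
  simp

end Pool.Agent.H159R2.LehE
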