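import Pool.Agent.H741R2.SST.Bases

/-!
# The bases of a finite family of vectors satisfy the exchange property
-/

set_option autoImplicit false

namespace Pool.Agent.H159R2.SSTB

open Finset Pool.Agent.H741R2.SST Module

theorem finrank_span_of_li {ι V : Type} [Fintype ι] [DecidableEq ι] [AddCommGroup V] [Module ℚ V]
    {v : ι → V} {T : Finset ι} (h : LinearIndepOn ℚ v (T : Set ι)) :
    finrank ℚ (Submodule.span ℚ (v '' (T : Set ι))) = #T := by
  have h1 := finrank_span_eq_card (R := ℚ) h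
  have h2 : Fintype.card ((T : Set ι) : Type) = #T := by simp
  rw [← h2, ← h1, Set.image_eq_range]

theorem B {ι V : Type} [Fintype ι] [DecidableEq ι] [AddCommGroup V] [Module ℚ V] (v : ι → V)
    (𝓑 : Finset (Finset ι))
    (h𝓑 : ∀ T, T ∈ 𝓑 ↔ (LinearIndepOn ℚ v (T : Set ι) ∧
      ∀ i, v i ∈ Submodule.span ℚ (v '' (T : Set ι)))) :
    𝓑.Nonempty ∧ (∃ r, IsBases 𝓑 r ∧
      ∀ T : Finset ι, T ∈ 𝓑 ↔ LinearIndepOn ℚ v (T : Set ι) ∧ #T = r) := by
  classical
  set r := finrank ℚ (Submodule.span ℚ (Set.range v)) with hr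
  have hfin : FiniteDimensional ℚ (Submodule.span ℚ (Set.range v)) :=
    FiniteDimensional.span_of_finite ℚ (Set.finite_range v)
  have hle : ∀ T : Finset ι, Submodule.span ℚ (v '' (T : Set ι)) ≤ Submodule.span ℚ (Set.range v) :=
    fun T => Submodule.span_mono (Set.image_subset_range _ _)
  have hchar : ∀ T : Finset ι, T ∈ 𝓑 ↔ LinearIndepOn ℚ v (T : Set ι) ∧ #T = r := by
    intro T
    rw [h𝓑]
    constructor
    · rintro ⟨h1, h2⟩
      refine ⟨h1, ?_⟩
      have h3 : Submodule.span ℚ (v '' (T : Set ι)) = Submodule.span ℚ (Set.range v) := by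
        refine le_antisymm (hle T) (Submodule.span_le.2 ?_)
        rintro _ ⟨i, rfl⟩
        exact h2 i
      rw [hr, ← h3, finrank_span_of_li h1]
    · rintro ⟨h1, h2⟩
      refine ⟨h1, fun i => ?_⟩
      have h3 : Submodule.span ℚ (v '' (T : Set ι)) = Submodule.span ℚ (Set.range v) := by
        apply Submodule.eq_of_le_of_finrank_eq (hle T)
        rw [finrank_span_of_li h1, h2]
      rw [h3]
      exact Submodule.subset_span ⟨i, rfl⟩
  refine ⟨?_, r, ⟨fun B hB => ((hchar B).1 hB).2, ?_⟩, hchar⟩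
  · obtain ⟨b, -, -, hb1, hb2⟩ := exists_linearIndepOn_extension (K := ℚ) (v := v)
      (s := (∅ : Set ι)) (t := Set.univ) (linearIndepOn_empty ℚ v) (Set.empty_subset _)
    refine ⟨b.toFinset, (h𝓑 _).2 ⟨by simpa using hb2, fun i => ?_⟩⟩
    have := hb1 ⟨i, Set.mem_univ i, rfl⟩
    simpa using this
  · intro A hA B hB x hx
    rw [Finset.mem_sdiff] at hx
    obtain ⟨hAi, hAr⟩ := (hchar A).1 hA
    have hBs := ((h𝓑 B).1 hB).2
    have hxs : v x ∉ Submodule.span ℚ (v '' ((A.erase x : Finset ι) : Set ι)) := by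
      have h1 := hAi
      rw [← Finset.insert_erase hx.1, Finset.coe_insert,
        linearIndepOn_insert (by simp)] at h1
      exact h1.2
    have hy : ∃ y ∈ B, v y ∉ Submodule.span ℚ (v '' ((A.erase x : Finset ι) : Set ι)) := by
      by_contra hcon
      push Not at hcon
      apply hxs
      have : Submodule.span ℚ (v '' (B : Set ι)) ≤
          Submodule.span ℚ (v '' ((A.erase x : Finset ι) : Set ι)) := by
        rw [Submodule.span_le]
        rintro _ ⟨y, hy, rfl⟩
        exact hcon y hy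
      exact this (hBs x)
    obtain ⟨y, hyB, hys⟩ := hy
    have hyx : y ≠ x := by
      rintro rfl
      exact hx.2 hyB
    have hyE : y ∉ A.erase x := by
      intro h
      exact hys (Submodule.subset_span ⟨y, h, rfl⟩)
    have hyA : y ∉ A := fun h => hyE (Finset.mem_erase.2 ⟨hyx, h⟩)
    refine ⟨y, Finset.mem_sdiff.2 ⟨hyB, hyA⟩, (hchar _).2 ⟨?_, ?_⟩⟩
    · rw [Finset.coe_insert, linearIndepOn_insert (by rwa [Finset.mem_coe])]
      exact ⟨hAi.mono (by intro z hz; exact Finset.mem_of_mem_erase hz), hys⟩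
    · rw [Finset.card_insert_of_notMem hyE, Finset.card_erase_add_one hx.1, hAr]

end Pool.Agent.H159R2.SSTB
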