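import Pool.Agent.H741R2.PWPrimes

/-!
# Division-free elimination modulo several integers tests linear independence over the rationals
-/

set_option autoImplicit false

namespace Pool.Agent.H159R2.SSTE

open Finset

/-- one elimination step modulo `m`: `none` if a vanishing vector was met -/
def elimStep (m : ℤ) : Option (List (List ℤ)) → Option (List (List ℤ))
  | none => none
  | some [] => some []
  | some (v :: us) =>
    match v.zipIdx.find? (fun p => decide (p.1 % m ≠ 0)) with
    | none => none
    | some p => some (us.map (fun u =>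
        List.zipWith (fun a b => (p.1 * a - u.getD p.2 0 * b) % m) u v))

/-- the test modulo `m` -/
def indMod (m : ℤ) (vs : List (List ℤ)) : Bool := ((elimStep m)^[vs.length] (some vs)).isSome

/-- the test: some modulus `m + 1`, `m < 2 (k² + 1)² + 1` works -/
def indQ (k : ℕ) (vs : List (List ℤ)) : Bool :=
  (List.range (2 * ((k * k + 1) * (k * k + 1)) + 1)).any (fun m => indMod (m + 1) vs)

/-! ### linear algebra of one elimination step -/

theorem li_cons_iff {K : Type} [Field K] {l n : ℕ} (v : Fin n → K) (u : Fin l → Fin n → K)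
    (i0 : Fin n) (hv : v i0 ≠ 0) :
    LinearIndependent K (Fin.cons v u : Fin (l + 1) → Fin n → K) ↔
      LinearIndependent K (fun j => v i0 • u j - u j i0 • v) := by
  rw [Fintype.linearIndependent_iff, Fintype.linearIndependent_iff]
  constructor
  · intro h g hg j
    have h1 := h (Fin.cons (-∑ j, g j * u j i0) (fun j => g j * v i0)) (by
      rw [Fin.sum_univ_succ]
      simp only [Fin.cons_zero, Fin.cons_succ]
      have h2 : ∑ j, g j • (v i0 • u j - u j i0 • v)
          = -(∑ j, g j * u j i0) • v + ∑ j, (g j * v i0) • u j := by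
        simp only [smul_sub, sum_sub_distrib, smul_smul, ← sum_smul]
        rw [neg_smul]
        abel
      rw [← h2, hg]) j.succ
    simp only [Fin.cons_succ] at h1
    exact (mul_eq_zero.1 h1).resolve_right hv
  · intro h G hG
    rw [Fin.sum_univ_succ] at hG
    simp only [Fin.cons_zero, Fin.cons_succ] at hG
    have hc : G 0 * v i0 + ∑ j : Fin l, G j.succ * u j i0 = 0 := by
      have := congrFun hG i0
      simpa [Finset.sum_apply] using this
    have h3 : ∑ j : Fin l, G j.succ • (v i0 • u j - u j i0 • v) = 0 := by
      have h4 : ∑ j : Fin l, G j.succ • (v i0 • u j - u j i0 • v)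
          = v i0 • (G 0 • v + ∑ j : Fin l, G j.succ • u j)
            - (G 0 * v i0 + ∑ j : Fin l, G j.succ * u j i0) • v := by
        simp only [smul_sub, sum_sub_distrib, smul_smul, smul_add, add_smul, sum_smul, smul_sum]
        have e1 : ∀ j : Fin l, (G j.succ * v i0) • u j = (v i0 * G j.succ) • u j := fun j => by
          rw [mul_comm]
        simp only [e1]
        rw [mul_comm (v i0) (G 0)]
        abel
      rw [h4, hG, hc]
      simp
    have h5 := h (fun j => G j.succ) h3
    have h6 : G 0 = 0 := by
      have : G 0 * v i0 = 0 := by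
        simpa [h5] using hc
      exact (mul_eq_zero.1 this).resolve_right hv
    intro i
    refine Fin.cases h6 h5 i

/-- the vector of a list -/
def toV (K : Type) [Field K] (n : ℕ) (u : List ℤ) : Fin n → K := fun j => ((u.getD j 0 : ℤ) : K)

/-- independence of a list of vectors -/
def LI {K : Type} [Field K] {n : ℕ} (L : List (Fin n → K)) : Prop :=
  LinearIndependent K (fun i : Fin L.length => L.get i)

theorem LI_cons {K : Type} [Field K] {n : ℕ} (v : Fin n → K) (L : List (Fin n → K)) (i0 : Fin n)
    (hv : v i0 ≠ 0) : LI (v :: L) ↔ LI (L.map (fun u => v i0 • u - u i0 • v)) := by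
  unfold LI
  have h1 : (fun i : Fin (v :: L).length => (v :: L).get i)
      = (Fin.cons v (fun j : Fin L.length => L.get j) : Fin (L.length + 1) → Fin n → K) := by
    funext i
    refine Fin.cases ?_ (fun j => ?_) i
    · rfl
    · rfl
  rw [h1, li_cons_iff v _ i0 hv]
  have e : L.length = (L.map (fun u => v i0 • u - u i0 • v)).length := by simp
  rw [← linearIndependent_equiv (finCongr e)]
  have h2 : ((fun i : Fin (L.map (fun u => v i0 • u - u i0 • v)).length =>
      (L.map (fun u => v i0 • u - u i0 • v)).get i) ∘ (finCongr e))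
      = fun j : Fin L.length => v i0 • L.get j - L.get j i0 • v := by
    funext j
    simp only [Function.comp_apply, List.get_eq_getElem, List.getElem_map]
    rfl
  rw [h2]

theorem LI_cons_ne {K : Type} [Field K] {n : ℕ} {v : Fin n → K} {L : List (Fin n → K)}
    (h : LI (v :: L)) : v ≠ 0 := by
  unfold LI at h
  have := h.ne_zero (⟨0, by simp⟩ : Fin (v :: L).length)
  simpa using this

theorem iterate_none (m : ℤ) (l : ℕ) : (elimStep m)^[l] none = none := by
  induction l with
  | zero => rfl
  | succ l ih => rw [Function.iterate_succ_apply]; exact ih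

theorem find_spec {m : ℤ} {v : List ℤ} {p : ℤ × ℕ}
    (h : v.zipIdx.find? (fun p => decide (p.1 % m ≠ 0)) = some p) :
    p.2 < v.length ∧ v.getD p.2 0 = p.1 ∧ p.1 % m ≠ 0 := by
  have h1 := List.find?_some h
  have h2 := List.mem_of_find?_eq_some h
  rw [show p = (p.1, p.2) from rfl, List.mk_mem_zipIdx_iff_getElem?] at h2
  refine ⟨?_, ?_, by simpa using h1⟩
  · by_contra hc
    rw [List.getElem?_eq_none (not_lt.1 hc)] at h2
    simp at h2
  · rw [List.getD_eq_getElem?_getD, h2]
    rfl

theorem getD_zipWith {n : ℕ} (f : ℤ → ℤ → ℤ) {u v : List ℤ} (hu : u.length = n)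
    (hv : v.length = n) {j : ℕ} (hj : j < n) :
    (List.zipWith f u v).getD j 0 = f (u.getD j 0) (v.getD j 0) := by
  rw [List.getD_eq_getElem _ _ (by simp [hu, hv, hj]), List.getD_eq_getElem _ _ (by omega),
    List.getD_eq_getElem _ _ (by omega)]
  simp

/-- congruence of vectors -/
def Cong (m : ℤ) (n : ℕ) (w v : List ℤ) : Prop :=
  w.length = n ∧ v.length = n ∧ ∀ j < n, w.getD j 0 % m = v.getD j 0 % m

theorem elimStep_none {m : ℤ} {v : List ℤ} {us : List (List ℤ)}
    (h : v.zipIdx.find? (fun p => decide (p.1 % m ≠ 0)) = none) :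
    elimStep m (some (v :: us)) = none := by
  simp only [elimStep, h]

theorem elimStep_some {m : ℤ} {v : List ℤ} {us : List (List ℤ)} {p : ℤ × ℕ}
    (h : v.zipIdx.find? (fun p => decide (p.1 % m ≠ 0)) = some p) :
    elimStep m (some (v :: us)) = some (us.map (fun u =>
        List.zipWith (fun a b => (p.1 * a - u.getD p.2 0 * b) % m) u v)) := by
  simp only [elimStep, h]

theorem toV_zipWith {K : Type} [Field K] {n : ℕ} (c d : ℤ) {u v : List ℤ} (hu : u.length = n)
    (hv : v.length = n) :
    toV K n (List.zipWith (fun a b => c * a - d * b) u v)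
      = (c : K) • toV K n u - (d : K) • toV K n v := by
  funext j
  simp only [toV, Pi.sub_apply, Pi.smul_apply, smul_eq_mul]
  rw [getD_zipWith _ hu hv j.2]
  push_cast
  rfl

theorem sound (m : ℤ) (n : ℕ) (l : ℕ) : ∀ (ws vs : List (List ℤ)), ws.length = l →
    List.Forall₂ (Cong m n) ws vs →
    ((elimStep m)^[vs.length] (some vs)).isSome = true → LI (ws.map (toV ℚ n)) := by
  induction l with
  | zero =>
    intro ws vs hl _ _
    rw [List.length_eq_zero_iff] at hl
    subst hl
    unfold LI
    rw [Fintype.linearIndependent_iff]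
    intro g _ i
    exact absurd i.2 (by simp)
  | succ l ih =>
    intro ws vs hl hf hs
    match ws, vs, hf with
    | w :: ws', v :: us, List.Forall₂.cons hwv hrest =>
      simp only [List.length_cons, Function.iterate_succ_apply] at hs
      simp only [List.length_cons, Nat.add_right_cancel_iff] at hl
      rcases hfind : v.zipIdx.find? (fun p => decide (p.1 % m ≠ 0)) with _ | p
      · rw [elimStep_none hfind, iterate_none] at hs
        simp at hs
      · obtain ⟨hp1, hp2, hp3⟩ := find_spec hfind
        rw [elimStep_some hfind] at hs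
        have hpn : p.2 < n := by rw [← hwv.2.1]; exact hp1
        have hwp : w.getD p.2 0 ≠ 0 := by
          intro h0
          have := hwv.2.2 p.2 hpn
          rw [h0, hp2] at this
          apply hp3
          rw [← this]
          simp
        rw [List.map_cons, LI_cons _ _ (⟨p.2, hpn⟩ : Fin n) (by
          simp only [toV]
          exact_mod_cast hwp), List.map_map]
        have hfw : List.Forall₂ (Cong m n)
            (ws'.map (fun u => List.zipWith (fun a b => w.getD p.2 0 * a - u.getD p.2 0 * b) u w))
            (us.map (fun u => List.zipWith (fun a b => (p.1 * a - u.getD p.2 0 * b) % m) u v)) := by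
          rw [List.forall₂_map_left_iff, List.forall₂_map_right_iff]
          refine hrest.imp ?_
          rintro a b ⟨ha, hb, hab⟩
          refine ⟨by simp [ha, hwv.1], by simp [hb, hwv.2.1], fun j hj => ?_⟩
          rw [getD_zipWith _ ha hwv.1 hj, getD_zipWith _ hb hwv.2.1 hj, Int.emod_emod, ← hp2]
          have e1 : w.getD p.2 0 ≡ v.getD p.2 0 [ZMOD m] := hwv.2.2 p.2 hpn
          have e2 : a.getD j 0 ≡ b.getD j 0 [ZMOD m] := hab j hj
          have e3 : a.getD p.2 0 ≡ b.getD p.2 0 [ZMOD m] := hab p.2 hpn
          have e4 : w.getD j 0 ≡ v.getD j 0 [ZMOD m] := hwv.2.2 j hj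
          exact (e1.mul e2).sub (e3.mul e4)
        have h3 := ih _ _ (by simpa using hl) hfw (by simpa using hs)
        rw [List.map_map] at h3
        convert h3 using 1
        refine List.map_congr_left fun u hu => ?_
        simp only [Function.comp_apply]
        have hul : u.length = n := by
          obtain ⟨i, hi, rfl⟩ := List.getElem_of_mem hu
          exact (List.forall₂_iff_get.1 hrest).2 i hi
            (by rw [← hrest.length_eq]; exact hi) |>.1
        rw [toV_zipWith _ _ hul hwv.1]
        rfl

theorem complete (p : ℕ) [Fact p.Prime] (n l : ℕ) : ∀ (vs : List (List ℤ)), vs.length = l →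
    (∀ v ∈ vs, v.length = n) → LI (vs.map (toV (ZMod p) n)) →
    ((elimStep p)^[vs.length] (some vs)).isSome = true := by
  induction l with
  | zero =>
    intro vs hl _ _
    rw [hl]
    rfl
  | succ l ih =>
    intro vs hl hn hli
    match vs with
    | v :: us =>
      simp only [List.length_cons, Function.iterate_succ_apply]
      simp only [List.length_cons, Nat.add_right_cancel_iff] at hl
      have hvn : v.length = n := hn v (by simp)
      rw [List.map_cons] at hli
      have hne := LI_cons_ne hli
      rcases hfind : v.zipIdx.find? (fun q => decide (q.1 % (p : ℤ) ≠ 0)) with _ | q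
      · exfalso
        apply hne
        funext j
        simp only [toV, Pi.zero_apply]
        rw [List.find?_eq_none] at hfind
        have hj : (j : ℕ) < v.length := by rw [hvn]; exact j.2
        have h1 := hfind (v[(j : ℕ)], (j : ℕ)) (by
          rw [List.mk_mem_zipIdx_iff_getElem?]
          exact List.getElem?_eq_getElem hj)
        rw [List.getD_eq_getElem _ _ hj, ZMod.intCast_zmod_eq_zero_iff_dvd]
        rw [decide_eq_true_eq, not_not] at h1
        exact Int.dvd_of_emod_eq_zero h1
      · obtain ⟨hp1, hp2, hp3⟩ := find_spec hfind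
        have hpn : q.2 < n := by rw [← hvn]; exact hp1
        rw [elimStep_some hfind]
        rw [LI_cons _ _ (⟨q.2, hpn⟩ : Fin n) (by
          simp only [toV]
          rw [hp2]
          intro h0
          rw [ZMod.intCast_zmod_eq_zero_iff_dvd] at h0
          exact hp3 (Int.emod_eq_zero_of_dvd h0)), List.map_map] at hli
        have h3 := ih (us.map (fun u =>
          List.zipWith (fun a b => (q.1 * a - u.getD q.2 0 * b) % (p : ℤ)) u v))
          (by simpa using hl) (by
            intro x hx
            rw [List.mem_map] at hx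
            obtain ⟨u, hu, rfl⟩ := hx
            simp [hvn, hn u (by simp [hu])]) (by
            rw [List.map_map]
            convert hli using 1
            refine List.map_congr_left fun u hu => ?_
            have hul : u.length = n := hn u (by simp [hu])
            funext j
            simp only [Function.comp_apply, toV, Pi.sub_apply, Pi.smul_apply, smul_eq_mul]
            rw [getD_zipWith _ hul hvn j.2, ZMod.intCast_mod, hp2]
            push_cast
            rfl)
        simpa using h3

/-- a nonzero maximal minor of a matrix with independent rows -/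
theorem exists_minor {l n : ℕ} (A : Matrix (Fin l) (Fin n) ℚ) (h : LinearIndependent ℚ A.row) :
    ∃ f : Fin l → Fin n, (A.submatrix id f).det ≠ 0 := by
  have hr : A.rank = l := by simpa using h.rank_matrix
  rw [Matrix.rank_eq_finrank_span_cols] at hr
  obtain ⟨κ, a, ha, hspan, hli⟩ := exists_linearIndependent' ℚ A.col
  have : Finite κ := Finite.of_injective a ha
  have := Fintype.ofFinite κ
  have hc : Fintype.card κ = l := by
    rw [← finrank_span_eq_card hli, hspan, hr]
  let e : Fin l ≃ κ := (Fintype.equivFinOfCardEq hc).symm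
  refine ⟨a ∘ e, ?_⟩
  have h1 : LinearIndependent ℚ (A.submatrix id (a ∘ e)).col := by
    have := hli.comp e e.injective
    exact this
  rw [Matrix.linearIndependent_cols_iff_isUnit, Matrix.isUnit_iff_isUnit_det] at h1
  exact h1.ne_zero

/-- an integer below `2 ^ N` in absolute value is not divisible by `N` distinct primes -/
theorem exists_prime_not_dvd {D : ℤ} (hD : D ≠ 0) {N : ℕ} (hDN : D.natAbs < 2 ^ N)
    (P : Finset ℕ) (hP : ∀ p ∈ P, p.Prime) (hN : N ≤ #P) : ∃ p ∈ P, ¬ (p : ℤ) ∣ D := by
  by_contra hcon
  push Not at hcon
  have h1 : ∏ p ∈ P, p ∣ D.natAbs := by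
    apply Finset.prod_primes_dvd
    · intro p hp
      exact (hP p hp).prime
    · intro p hp
      exact Int.natCast_dvd.1 (hcon p hp)
  have h2 : 2 ^ #P ≤ ∏ p ∈ P, p := by
    rw [← Finset.prod_const]
    exact Finset.prod_le_prod' fun p hp => (hP p hp).two_le
  have h3 := Nat.le_of_dvd (Int.natAbs_pos.2 hD) h1
  have h4 : 2 ^ N ≤ 2 ^ #P := Nat.pow_le_pow_right (by norm_num) hN
  omega

theorem factorial_lt (k : ℕ) : k.factorial < 2 ^ (k * k + 1) := by
  have h1 : k.factorial ≤ k ^ k := Nat.factorial_le_pow k
  have h2 : k ^ k ≤ (2 ^ k) ^ k := Nat.pow_le_pow_left Nat.lt_two_pow_self.le k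
  rw [← pow_mul] at h2
  have h3 : 2 ^ (k * k) < 2 ^ (k * k + 1) := Nat.pow_lt_pow_right (by norm_num) (by omega)
  omega

/-- the test `indQ` decides linear independence over the rationals -/
theorem E {n k : ℕ} (vs : List (List ℤ)) (hlen : vs.length ≤ k)
    (hvs : ∀ v ∈ vs, v.length = n ∧ ∀ e ∈ v, e = 0 ∨ e = 1 ∨ e = -1) :
    indQ k vs = true ↔
      LinearIndependent ℚ (fun i : Fin vs.length => fun j : Fin n => (((vs.get i).getD j 0 : ℤ) : ℚ)) := by
  have key : ∀ (K : Type) [Field K], LI (vs.map (toV K n)) ↔
      LinearIndependent K (fun i : Fin vs.length => fun j : Fin n =>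
        (((vs.get i).getD j 0 : ℤ) : K)) := by
    intro K _
    unfold LI
    have e : vs.length = (vs.map (toV K n)).length := by simp
    rw [← linearIndependent_equiv (finCongr e)]
    have h2 : ((fun i : Fin (vs.map (toV K n)).length => (vs.map (toV K n)).get i) ∘ (finCongr e))
        = (fun i : Fin vs.length => fun j : Fin n => (((vs.get i).getD j 0 : ℤ) : K)) := by
      funext i
      simp only [Function.comp_apply, List.get_eq_getElem, List.getElem_map]
      rfl
    rw [h2]
  constructor
  · intro h
    rw [← key ℚ]
    simp only [indQ, List.any_eq_true, List.mem_range] at h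
    obtain ⟨m, _, hm⟩ := h
    exact sound _ n vs.length vs vs rfl
      (List.forall₂_same.2 fun v hv => ⟨(hvs v hv).1, (hvs v hv).1, fun _ _ => rfl⟩) hm
  · intro h
    set B : Matrix (Fin vs.length) (Fin n) ℤ := fun i j => (vs.get i).getD j 0 with hB
    obtain ⟨f, hf⟩ := exists_minor (fun i j => ((B i j : ℤ) : ℚ)) h
    have hdet : (Matrix.submatrix B id f).det ≠ 0 := by
      intro h0
      apply hf
      have : (Matrix.submatrix (fun i j => ((B i j : ℤ) : ℚ)) id f).det
          = (((Matrix.submatrix B id f).det : ℤ) : ℚ) := by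
        rw [Int.cast_det]
        rfl
      rw [this, h0]
      simp
    have hbound : (Matrix.submatrix B id f).det.natAbs ≤ k.factorial := by
      have h1 := Matrix.det_le (A := Matrix.submatrix B id f) (abv := AbsoluteValue.abs) (x := (1 : ℤ))
        (fun i j => by
          have hmem : vs.get i ∈ vs := List.get_mem _ _
          have hlt : (f j : ℕ) < (vs.get i).length := by
            rw [(hvs _ hmem).1]; exact (f j).2
          change |(vs.get i).getD (f j : ℕ) 0| ≤ 1
          rw [List.getD_eq_getElem _ _ hlt]
          rcases (hvs _ hmem).2 _ (List.getElem_mem hlt) with h | h | h <;> rw [h] <;> simp)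
      simp only [AbsoluteValue.abs_apply, one_pow, nsmul_eq_mul, mul_one, Fintype.card_fin] at h1
      have h2 : (vs.length.factorial : ℤ) ≤ k.factorial := by
        exact_mod_cast Nat.factorial_le hlen
      have h3 : (((Matrix.submatrix B id f).det.natAbs : ℕ) : ℤ) ≤ k.factorial := by
        rw [Int.natCast_natAbs]
        exact h1.trans h2
      exact_mod_cast h3
    obtain ⟨p, hp, hpD⟩ := exists_prime_not_dvd hdet (hbound.trans_lt (factorial_lt k))
      {p ∈ range (2 * ((k * k + 1) * (k * k + 1)) + 1) | p.Prime}
      (fun p hp => (Finset.mem_filter.1 hp).2) (Pool.Agent.H741R2.PW.card_primes_ge (k * k + 1))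
    rw [Finset.mem_filter, Finset.mem_range] at hp
    have : Fact p.Prime := ⟨hp.2⟩
    have hli : LI (vs.map (toV (ZMod p) n)) := by
      rw [key]
      have hu : IsUnit (Matrix.submatrix (fun i j => ((B i j : ℤ) : ZMod p)) id f) := by
        rw [Matrix.isUnit_iff_isUnit_det]
        have : (Matrix.submatrix (fun i j => ((B i j : ℤ) : ZMod p)) id f).det
            = (((Matrix.submatrix B id f).det : ℤ) : ZMod p) := by
          rw [Int.cast_det]
          rfl
        rw [this, isUnit_iff_ne_zero]
        intro h0
        rw [ZMod.intCast_zmod_eq_zero_iff_dvd] at h0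
        exact hpD h0
      rw [← Matrix.linearIndependent_rows_iff_isUnit] at hu
      refine LinearIndependent.of_comp (LinearMap.funLeft (ZMod p) (ZMod p) f) ?_
      exact hu
    have hc := complete p n vs.length vs rfl (fun v hv => (hvs v hv).1) hli
    simp only [indQ, List.any_eq_true, List.mem_range]
    have hp1 := hp.2.one_lt
    refine ⟨p - 1, by omega, ?_⟩
    unfold indMod
    have : ((p - 1 : ℕ) : ℤ) + 1 = p := by
      push_cast [Nat.cast_sub hp1.le]
      ring
    rw [this]
    exact hc

end Pool.Agent.H159R2.SSTE
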